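import Pool.Agent.W376.GF.Ring

/-!
Project GF (helper559): the atlas of a hypersurface.
-/

set_option autoImplicit false

open AlgebraicGeometry CategoryTheory Limits HomogeneousLocalization MvPolynomial

namespace Pool.Agent.W376.GF

open Pool.Agent.W559.GF

attribute [local instance] MvPolynomial.gradedAlgebra

/-- reduced closed subschemes of an affine scheme -/
theorem closed_iso {R F : Type} [CommRing R] [Field F] {P : Scheme.{0}} [IsReduced P]
    (c : P ⟶ Spec (CommRingCat.of R)) [IsClosedImmersion c] (φ : R →+* F) (A : Subring F)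
    (hA : φ.range = A) (a : R) (hker : RingHom.ker φ = Ideal.span {a})
    (hr : Set.range c = PrimeSpectrum.zeroLocus {a}) :
    ∃ k : Spec (CommRingCat.of A) ≅ P,
      Spec.map (CommRingCat.ofHom A.subtype) ≫ k.hom ≫ c = Spec.map (CommRingCat.ofHom φ) := by
  obtain ⟨I, e, he⟩ := IsClosedImmersion.Spec_iff.1 ‹IsClosedImmersion c›
  have hred : IsReduced (Spec (CommRingCat.of (R ⧸ I))) := isReduced_of_isOpenImmersion e.inv
  have hred2 : _root_.IsReduced (R ⧸ I) := (affine_isReduced_iff _).1 hred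
  have hrad : I.IsRadical := (Ideal.isRadical_iff_quotient_reduced I).2 hred2
  have hr2 : Set.range c = PrimeSpectrum.zeroLocus (I : Set R) := by
    have h1 : Set.range c = Set.range (Spec.map (CommRingCat.ofHom (Ideal.Quotient.mk I))) := by
      rw [he]
      rw [Scheme.Hom.comp_base, TopCat.coe_comp, Set.range_comp]
      have h0 : Set.range e.hom = Set.univ := Set.range_eq_univ.2 e.hom.homeomorph.surjective
      rw [h0, Set.image_univ]
    rw [h1]
    have h2 := range_comap_of_surjective _ (Ideal.Quotient.mk I)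
      Ideal.Quotient.mk_surjective
    rw [Ideal.mk_ker] at h2
    exact h2
  have hI : I = RingHom.ker φ := by
    have h1 : (RingHom.ker φ).IsRadical := (RingHom.ker_isPrime φ).isRadical
    have h2 : PrimeSpectrum.zeroLocus (I : Set R) =
        PrimeSpectrum.zeroLocus (RingHom.ker φ : Set R) := by
      rw [← hr2, hr, hker, PrimeSpectrum.zeroLocus_span]
    have h3 := congrArg PrimeSpectrum.vanishingIdeal h2
    rw [PrimeSpectrum.vanishingIdeal_zeroLocus_eq_radical,
      PrimeSpectrum.vanishingIdeal_zeroLocus_eq_radical, hrad.radical, h1.radical] at h3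
    exact h3
  subst hI
  subst hA
  let E : (R ⧸ RingHom.ker φ) ≃+* φ.range := RingHom.quotientKerEquivRange φ
  refine ⟨asIso (Spec.map E.toCommRingCatIso.hom) ≪≫ e.symm, ?_⟩
  rw [he]
  simp only [Iso.trans_hom, asIso_hom, Iso.symm_hom, Category.assoc, Iso.inv_hom_id_assoc]
  rw [← Spec.map_comp, ← Spec.map_comp]
  congr 1

section

variable {K F ι : Type} [Field K] [Field F] [Algebra K F] (x : ι → F) (i : ι)

/-- the chart of the projective space -/
noncomputable def wi (K : Type) [Field K] (i : ι) :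
    Spec (CommRingCat.of (Away (homogeneousSubmodule ι K) (X i))) ⟶ PN K ι :=
  Proj.awayι (homogeneousSubmodule ι K) (X i) (X_mem i) one_pos

instance (i : ι) : IsOpenImmersion (wi K i) :=
  inferInstanceAs (IsOpenImmersion (Proj.awayι (homogeneousSubmodule ι K) (X i) (X_mem i) one_pos))

theorem elem_eq {d : ℕ} {Φ : MvPolynomial ι K} (hΦ : Φ ∈ homogeneousSubmodule ι K d)
    (hΦ' : Φ ∈ homogeneousSubmodule ι K (d • 1)) :
    Away.isLocalizationElem (X_mem (K := K) i) hΦ =
      Away.mk (homogeneousSubmodule ι K) (X_mem i) d Φ hΦ' := by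
  apply HomogeneousLocalization.val_injective
  rw [Away.val_mk, Away.val_mk, pow_one]

theorem chart {d : ℕ} {Φ : MvPolynomial ι K} (hΦ : Φ.IsHomogeneous d) (hd1 : 1 ≤ d)
    (hx : ∀ i, x i ≠ 0) (h0 : aeval x Φ = 0)
    (hd : ∀ (e : ℕ) (G : MvPolynomial ι K), G.IsHomogeneous e → aeval x G = 0 → Φ ∣ G)
    {Z : Scheme.{0}} [IsReduced Z] (j : Z ⟶ PN K ι) [IsClosedImmersion j]
    (hj : Set.range j = {y : ProjectiveSpectrum (homogeneousSubmodule ι K) |
      Φ ∈ y.asHomogeneousIdeal}) :
    ∃ (k : Spec (CommRingCat.of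
      (Algebra.adjoin K (Set.range fun j => x j / x i)).toSubring) ⟶ Z) (_ : IsOpenImmersion k),
      Set.range k = j ⁻¹' Set.range (wi K i) ∧
      Spec.map (CommRingCat.ofHom (Algebra.adjoin K
        (Set.range fun j => x j / x i)).toSubring.subtype) ≫ k ≫ j =
        Spec.map (CommRingCat.ofHom (ev (K := K) x (X i) (aeval_X_ne x i hx))) ≫ wi K i := by
  have hΦ' : Φ ∈ homogeneousSubmodule ι K (d • 1) := by
    rw [smul_eq_mul, mul_one]
    exact hΦ
  have hP : IsReduced (pullback j (wi K i)) :=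
    isReduced_of_isOpenImmersion (pullback.fst j (wi K i))
  have hr : Set.range (pullback.snd j (wi K i)) =
      PrimeSpectrum.zeroLocus {Away.mk (homogeneousSubmodule ι K) (X_mem i) d Φ hΦ'} := by
    rw [Scheme.Pullback.range_snd, hj]
    ext p
    have h1 := Proj.awayι_preimage_basicOpen (homogeneousSubmodule ι K) (X_mem (K := K) i)
      one_pos hΦ (Nat.lt_of_lt_of_le one_pos hd1)
    rw [elem_eq i hΦ hΦ'] at h1
    have h2 : ¬ Φ ∈ (wi K i p).asHomogeneousIdeal ↔
        ¬ Away.mk (homogeneousSubmodule ι K) (X_mem i) d Φ hΦ' ∈ p.asIdeal :=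
      SetLike.ext_iff.1 h1 p
    change Φ ∈ (wi K i p).asHomogeneousIdeal ↔
      {Away.mk (homogeneousSubmodule ι K) (X_mem i) d Φ hΦ'} ⊆ (p.asIdeal : Set _)
    rw [Set.singleton_subset_iff]
    exact not_iff_not.1 h2
  obtain ⟨k, hk⟩ := closed_iso (pullback.snd j (wi K i))
    (ev (K := K) x (X i) (aeval_X_ne x i hx)) _ (ev_range x i hx) _ (ev_ker x i hΦ' hx h0 hd) hr
  refine ⟨k.hom ≫ pullback.fst j (wi K i), inferInstance, ?_, ?_⟩
  · rw [Scheme.Hom.comp_base, TopCat.coe_comp, Set.range_comp]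
    have h4 : Set.range k.hom = Set.univ := Set.range_eq_univ.2 k.hom.homeomorph.surjective
    rw [h4, Set.image_univ, Scheme.Pullback.range_fst]
  · rw [Category.assoc, pullback.condition, ← hk, Category.assoc, Category.assoc]

theorem pair_eq (k : ι) (hx : ∀ i, x i ≠ 0) :
    Spec.map (CommRingCat.ofHom (ev (K := K) x (X i) (aeval_X_ne x i hx))) ≫ wi K i =
      Spec.map (CommRingCat.ofHom (ev (K := K) x (X k) (aeval_X_ne x k hx))) ≫ wi K k := by
  have h0 : aeval x (X i * X k : MvPolynomial ι K) ≠ 0 := by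
    rw [map_mul]
    exact mul_ne_zero (aeval_X_ne x i hx) (aeval_X_ne x k hx)
  rw [← ev_awayMap x (X_mem i) (X_mem k) rfl h0 (aeval_X_ne x i hx),
    ← ev_awayMap x (X_mem k) (X_mem i) (mul_comm _ _) h0 (aeval_X_ne x k hx)]
  rw [CommRingCat.ofHom_comp, CommRingCat.ofHom_comp, Spec.map_comp, Spec.map_comp,
    Category.assoc, Category.assoc]
  congr 1
  exact (Proj.SpecMap_awayMap_awayι _ _ one_pos _ rfl).trans
    (Proj.SpecMap_awayMap_awayι _ _ one_pos _ (mul_comm _ _)).symm

theorem str_eq (hx : ∀ i, x i ≠ 0) :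
    (Spec.map (CommRingCat.ofHom (ev (K := K) x (X i) (aeval_X_ne x i hx))) ≫ wi K i) ≫
      PNstr K ι = Spec.map (CommRingCat.ofHom (algebraMap K F)) := by
  have h2 : wi K i ≫ PNstr K ι = Spec.map (CommRingCat.ofHom (fromZeroRingHom
      (homogeneousSubmodule ι K) _)) ≫
      Spec.map (CommRingCat.ofHom (algebraMap K (homogeneousSubmodule ι K 0))) :=
    Proj.awayι_toSpecZero_assoc (homogeneousSubmodule ι K) (X i) (X_mem i) one_pos
      (Spec.map (CommRingCat.ofHom (algebraMap K (homogeneousSubmodule ι K 0))))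
  rw [Category.assoc, h2, ← Spec.map_comp, ← Spec.map_comp, ← CommRingCat.ofHom_comp,
    ← CommRingCat.ofHom_comp, ← RingHom.comp_assoc, ev_zero]

end

theorem cover_top (K ι : Type) [Field K] :
    ⨆ i : ι, Proj.basicOpen (homogeneousSubmodule ι K) (X i) = ⊤ := by
  refine Proj.iSup_basicOpen_eq_top' _ _ (fun i => ⟨1, X_mem i⟩) ?_
  rw [eq_top_iff]
  intro p _
  induction p using MvPolynomial.induction_on with
  | C c =>
    have h : (C c : MvPolynomial ι K) = algebraMap (homogeneousSubmodule ι K 0)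
      (MvPolynomial ι K) ⟨C c, isHomogeneous_C _ _⟩ := rfl
    rw [h]
    exact Subalgebra.algebraMap_mem _ _
  | add p q hp hq => exact add_mem (hp trivial) (hq trivial)
  | mul_X p i hp => exact mul_mem (hp trivial) (Algebra.subset_adjoin ⟨i, rfl⟩)

theorem hyp : HypStm := by
  intro K F ι _ _ _ _ hne d Φ hΦ hd1 x hx h0 hd Z f ⟨hZ, j, hj, hjf, hr⟩
  choose k hk hkr hkc using fun i => chart x i hΦ hd1 hx h0 hd j hr
  have hmono : Mono j := inferInstance
  obtain ⟨i₀⟩ := hne
  have hη : ∀ i, Spec.map (CommRingCat.ofHom (Algebra.adjoin K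
        (Set.range fun j => x j / x i)).toSubring.subtype) ≫ k i =
      Spec.map (CommRingCat.ofHom (Algebra.adjoin K
        (Set.range fun j => x j / x i₀)).toSubring.subtype) ≫ k i₀ := by
    intro i
    rw [← cancel_mono j, Category.assoc, Category.assoc, hkc, hkc]
    exact pair_eq x i i₀ hx
  refine ⟨_, ?_, fun i => (k i).opensRange, ?_, fun i => ⟨k i, hk i, rfl, hη i⟩⟩
  · have h5 := str_eq (K := K) x i₀ hx
    rw [← hkc i₀, Category.assoc, Category.assoc] at h5
    rw [← hjf, Category.assoc]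
    exact h5
  · rw [eq_top_iff]
    intro z _
    have h1 : j z ∈ (⨆ i : ι, Proj.basicOpen (homogeneousSubmodule ι K) (X i)) := by
      rw [cover_top]
      trivial
    obtain ⟨i, hi⟩ := TopologicalSpace.Opens.mem_iSup.1 h1
    rw [TopologicalSpace.Opens.mem_iSup]
    refine ⟨i, ?_⟩
    change z ∈ Set.range (k i)
    rw [hkr, Set.mem_preimage]
    have h2 : (wi K i).opensRange = Proj.basicOpen (homogeneousSubmodule ι K) (X i) :=
      Proj.opensRange_awayι _ _ _ _
    change j z ∈ (wi K i).opensRange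
    rw [h2]
    exact hi

end Pool.Agent.W376.GF
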