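import Pool.Agent.W559.GF.Stm

/-!
Project GF (helper559): the charts of a hypersurface, ring level.
-/

set_option autoImplicit false

open AlgebraicGeometry CategoryTheory Limits HomogeneousLocalization MvPolynomial

namespace Pool.Agent.W376.GF

attribute [local instance] MvPolynomial.gradedAlgebra

variable {K F ι : Type} [Field K] [Field F] [Algebra K F]

/-- evaluation of fractions -/
noncomputable def ev (x : ι → F) (g : MvPolynomial ι K) (hg : aeval x g ≠ 0) :
    Away (homogeneousSubmodule ι K) g →+* F :=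
  (Localization.awayLift (aeval x : MvPolynomial ι K →ₐ[K] F).toRingHom g
    (isUnit_iff_ne_zero.2 hg)).comp
    (algebraMap (Away (homogeneousSubmodule ι K) g) (Localization.Away g))

theorem lift_mk (x : ι → F) (g : MvPolynomial ι K) (hg : aeval x g ≠ 0) (a : MvPolynomial ι K)
    (n : ℕ) (h : g ^ n ∈ Submonoid.powers g) :
    Localization.awayLift (aeval x : MvPolynomial ι K →ₐ[K] F).toRingHom g
      (isUnit_iff_ne_zero.2 hg) (Localization.mk a ⟨g ^ n, h⟩) = aeval x a / aeval x g ^ n := by
  have h1 : (aeval x : MvPolynomial ι K →ₐ[K] F).toRingHom g * (aeval x g)⁻¹ = 1 :=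
    mul_inv_cancel₀ hg
  have h2 := Localization.awayLift_mk (aeval x : MvPolynomial ι K →ₐ[K] F).toRingHom g a
    (aeval x g)⁻¹ h1 n
  rw [div_eq_mul_inv, ← inv_pow]
  exact h2

theorem ev_mk (x : ι → F) (g : MvPolynomial ι K) (hg : aeval x g ≠ 0) {m : ℕ}
    (hm : g ∈ homogeneousSubmodule ι K m) (n : ℕ) (a : MvPolynomial ι K)
    (ha : a ∈ homogeneousSubmodule ι K (n • m)) :
    ev x g hg (Away.mk (homogeneousSubmodule ι K) hm n a ha) = aeval x a / aeval x g ^ n := by
  unfold ev
  rw [RingHom.comp_apply, HomogeneousLocalization.algebraMap_apply, Away.val_mk]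
  exact lift_mk x g hg a n _

theorem ev_awayMap (x : ι → F) {f g p : MvPolynomial ι K} {m m' : ℕ}
    (hf : f ∈ homogeneousSubmodule ι K m) (hg : g ∈ homogeneousSubmodule ι K m') (hp : p = f * g)
    (h0 : aeval x p ≠ 0) (hf0 : aeval x f ≠ 0) :
    (ev x p h0).comp (awayMap (homogeneousSubmodule ι K) hg hp) = ev x f hf0 := by
  refine RingHom.ext fun z => ?_
  obtain ⟨n, a, ha, rfl⟩ := Away.mk_surjective (homogeneousSubmodule ι K) hf z
  rw [RingHom.comp_apply, awayMap_mk, ev_mk, ev_mk]
  subst hp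
  rw [map_mul] at h0
  have hg0 : aeval x g ≠ 0 := right_ne_zero_of_mul h0
  rw [map_mul, map_mul, map_pow, mul_pow]
  field_simp

theorem ev_zero (x : ι → F) (g : MvPolynomial ι K) (hg : aeval x g ≠ 0) :
    ((ev x g hg).comp (fromZeroRingHom (homogeneousSubmodule ι K) _)).comp
      (algebraMap K (homogeneousSubmodule ι K 0)) = algebraMap K F := by
  refine RingHom.ext fun c => ?_
  rw [RingHom.comp_apply, RingHom.comp_apply]
  unfold ev
  rw [RingHom.comp_apply, HomogeneousLocalization.algebraMap_apply]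
  have h1 := lift_mk x g hg (C c) 0 ⟨0, rfl⟩
  have h2 : aeval x (C c) / aeval x g ^ 0 = algebraMap K F c := by
    rw [pow_zero, div_one, aeval_C]
  refine Eq.trans ?_ (h1.trans h2)
  congr 1

variable (x : ι → F) (i : ι)

theorem X_mem : (X i : MvPolynomial ι K) ∈ homogeneousSubmodule ι K 1 := isHomogeneous_X K i

theorem aeval_X_ne (hx : ∀ i, x i ≠ 0) : aeval x (X i : MvPolynomial ι K) ≠ 0 := by
  rw [aeval_X]
  exact hx i

/-- evaluation of a homogeneous polynomial -/
theorem aeval_div {n : ℕ} {a : MvPolynomial ι K} (ha : a ∈ homogeneousSubmodule ι K n) : aeval x a / x i ^ n = aeval (fun j => x j / x i) a := by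
  have h1 : a.IsHomogeneous n := ha
  rw [aeval_def, aeval_def, eval₂_eq, eval₂_eq, Finset.sum_div]
  refine Finset.sum_congr rfl fun e he => ?_
  have h2 : e.degree = n := by
    by_contra h3
    exact mem_support_iff.1 he (h1.coeff_eq_zero h3)
  have h3 : ∏ j ∈ e.support, (x j / x i) ^ e j = (∏ j ∈ e.support, x j ^ e j) / x i ^ n := by
    rw [← h2, Finsupp.degree_apply, ← Finset.prod_pow_eq_pow_sum, ← Finset.prod_div_distrib]
    exact Finset.prod_congr rfl fun j _ => div_pow _ _ _
  rw [h3, mul_div_assoc]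

theorem ev_range (hx : ∀ i, x i ≠ 0) :
    (ev (K := K) x (X i) (aeval_X_ne x i hx)).range =
      (Algebra.adjoin K (Set.range fun j => x j / x i)).toSubring := by
  ext y
  constructor
  · rintro ⟨z, rfl⟩
    obtain ⟨n, a, ha, rfl⟩ := Away.mk_surjective _ (X_mem (K := K) i) z
    rw [ev_mk, aeval_X]
    rw [smul_eq_mul, mul_one] at ha
    rw [aeval_div x i ha]
    change _ ∈ Algebra.adjoin K (Set.range fun j => x j / x i)
    rw [Algebra.adjoin_range_eq_range_aeval]
    exact ⟨a, rfl⟩
  · intro hy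
    change y ∈ Algebra.adjoin K (Set.range fun j => x j / x i) at hy
    induction hy using Algebra.adjoin_induction with
    | mem y hy =>
      obtain ⟨j, rfl⟩ := hy
      refine ⟨Away.mk (homogeneousSubmodule ι K) (X_mem i) 1 (X j) (by
        rw [smul_eq_mul, mul_one]
        exact X_mem j), ?_⟩
      rw [ev_mk, aeval_X, aeval_X, pow_one]
    | algebraMap c =>
      rw [← ev_zero x (X i) (aeval_X_ne x i hx)]
      exact ⟨_, rfl⟩
    | add a b _ _ ha hb => exact add_mem ha hb
    | mul a b _ _ ha hb => exact mul_mem ha hb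

theorem mk_mul {g : MvPolynomial ι K} {m : ℕ} (hm : g ∈ homogeneousSubmodule ι K m) {n n' k : ℕ}
    (hk : k = n + n') {a b c : MvPolynomial ι K} (ha : a ∈ homogeneousSubmodule ι K (n • m))
    (hb : b ∈ homogeneousSubmodule ι K (n' • m)) (hc : c ∈ homogeneousSubmodule ι K (k • m))
    (h : c = a * b) : Away.mk (homogeneousSubmodule ι K) hm k c hc =
      Away.mk (homogeneousSubmodule ι K) hm n a ha *
        Away.mk (homogeneousSubmodule ι K) hm n' b hb := by
  apply HomogeneousLocalization.val_injective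
  rw [HomogeneousLocalization.val_mul, Away.val_mk, Away.val_mk, Away.val_mk, Localization.mk_mul]
  subst hk h
  congr 1
  exact Subtype.ext (pow_add g n n')

theorem ev_ker {d : ℕ} {Φ : MvPolynomial ι K} (hΦ : Φ ∈ homogeneousSubmodule ι K (d • 1))
    (hx : ∀ i, x i ≠ 0) (h0 : aeval x Φ = 0)
    (hd : ∀ (e : ℕ) (G : MvPolynomial ι K), G.IsHomogeneous e → aeval x G = 0 → Φ ∣ G) :
    RingHom.ker (ev (K := K) x (X i) (aeval_X_ne x i hx)) =
      Ideal.span {Away.mk (homogeneousSubmodule ι K) (X_mem i) d Φ hΦ} := by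
  apply le_antisymm
  · intro z hz
    obtain ⟨n, a, ha, rfl⟩ := Away.mk_surjective _ (X_mem (K := K) i) z
    rw [RingHom.mem_ker, ev_mk, div_eq_zero_iff] at hz
    have h1 : aeval x a = 0 := hz.resolve_right (pow_ne_zero _ (aeval_X_ne x i hx))
    obtain ⟨b, hb⟩ := hd _ a ha h1
    rw [Ideal.mem_span_singleton']
    have h2 : (DirectSum.decompose (homogeneousSubmodule ι K) a (n • 1) : MvPolynomial ι K) = a :=
      DirectSum.decompose_of_mem_same _ ha
    rw [hb] at h2
    by_cases hn : d • 1 ≤ n • 1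
    · rw [DirectSum.coe_decompose_mul_of_left_mem_of_le _ hΦ hn] at h2
      have hn' : n = d + (n - d) := by
        rw [smul_eq_mul, smul_eq_mul, mul_one, mul_one] at hn
        omega
      have h3 : ((DirectSum.decompose (homogeneousSubmodule ι K) b (n • 1 - d • 1) :
          MvPolynomial ι K)) ∈ homogeneousSubmodule ι K ((n - d) • 1) := by
        have h4 : (n - d) • 1 = n • 1 - d • 1 := by
          rw [smul_eq_mul, smul_eq_mul, smul_eq_mul, mul_one, mul_one, mul_one]
        rw [h4]
        exact (DirectSum.decompose (homogeneousSubmodule ι K) b (n • 1 - d • 1)).2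
      refine ⟨Away.mk (homogeneousSubmodule ι K) (X_mem i) (n - d) _ h3, ?_⟩
      rw [mul_comm]
      exact (mk_mul _ hn' hΦ h3 ha (hb.trans h2.symm)).symm
    · rw [DirectSum.coe_decompose_mul_of_left_mem_of_not_le _ hΦ hn] at h2
      refine ⟨0, ?_⟩
      rw [zero_mul]
      apply HomogeneousLocalization.val_injective
      rw [Away.val_mk, HomogeneousLocalization.val_zero, hb, ← h2, Localization.mk_zero]
  · rw [Ideal.span_le, Set.singleton_subset_iff]
    change _ ∈ RingHom.ker _
    rw [RingHom.mem_ker, ev_mk, h0, zero_div]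

end Pool.Agent.W376.GF
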